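import Pool.Agent.Helper28.ND.Spec3

/-!
# ND2, part SIT: a forward solution with symmetric data is a situation.
-/

set_option autoImplicit false

namespace Pool.Agent.Helper57.ND.SIT
open MeasureTheory Set Filter Topology
open Pool.Agent.Helper28.ND

theorem main (hloc : S_FLOC) (hpos : S_FPOS) : S_SIT := by
  intro T b f u v hT hs hf hb hfp
  have h0 : ∀ t, t ≤ (0 : ℝ) → ∀ x, f t x = 0 := fun t ht x => hs.dat.sf t (Or.inl ht) x
  have s1 : ∀ t x, u t ![-x 0, x 1] = - u t x := by
    intro t x
    have h := hloc 2 T b b f f u u v v hT hs hs ![-1, 1] ![0, 0] (-1) 0 t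
      (by intro i; fin_cases i <;> simp) (Or.inr rfl) le_rfl ?_ h0 t le_rfl x
    · have e : (fun i => (![-1, 1] : Fin 2 → ℝ) i * x i + (![0, 0] : Fin 2 → ℝ) i)
          = ![-x 0, x 1] := by
        funext i; fin_cases i <;> simp
      rw [e, add_zero] at h
      rw [h]; ring
    · intro t' _ _ y
      have e : (fun i => (![-1, 1] : Fin 2 → ℝ) i * y i + (![0, 0] : Fin 2 → ℝ) i)
          = ![-y 0, y 1] := by
        funext i; fin_cases i <;> simp
      rw [e, add_zero]
      refine ⟨by rw [(hf t').1 y]; ring, ?_⟩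
      intro i
      have := (hb t').1 y
      fin_cases i
      · simpa using this.1
      · simpa using this.2
  have s2 : ∀ t x, u t ![1 / 2 - x 0, x 1] = u t x := by
    intro t x
    have h := hloc 2 T b b f f u u v v hT hs hs ![-1, 1] ![1 / 2, 0] 1 0 t
      (by intro i; fin_cases i <;> simp) (Or.inl rfl) le_rfl ?_ h0 t le_rfl x
    · have e : (fun i => (![-1, 1] : Fin 2 → ℝ) i * x i + (![1 / 2, 0] : Fin 2 → ℝ) i)
          = ![1 / 2 - x 0, x 1] := by
        funext i; fin_cases i <;> simp <;> ring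
      rw [e, add_zero] at h
      rw [h]; ring
    · intro t' _ _ y
      have e : (fun i => (![-1, 1] : Fin 2 → ℝ) i * y i + (![1 / 2, 0] : Fin 2 → ℝ) i)
          = ![1 / 2 - y 0, y 1] := by
        funext i; fin_cases i <;> simp <;> ring
      rw [e, add_zero]
      refine ⟨by rw [(hf t').2 y]; ring, ?_⟩
      intro i
      have := (hb t').2 y
      fin_cases i
      · simpa using this.1
      · simpa using this.2
  refine ⟨hT, hs, fun t => ⟨s1 t, s2 t⟩, hf, hb, hfp, ?_⟩
  intro t x ht hx0 hx1
  refine hpos T b f u v hT hs s1 ?_ t x ht hx0 (by linarith)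
  intro t' y hy0 hy1
  by_cases h : y 0 ≤ 1 / 4
  · exact hfp t' y hy0 h
  · have := hfp t' ![1 / 2 - y 0, y 1] (by simp; linarith) (by simp; linarith)
    rwa [(hf t').2 y] at this

end Pool.Agent.Helper57.ND.SIT
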