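import Pool.Agent.Helper28.ND.Spec3

/-!
# ND2, part SUB: subsolutions give lower bounds.
-/

set_option autoImplicit false

namespace Pool.Agent.Helper57.ND.SUB
open MeasureTheory Set Filter Topology
open Pool.Agent.Helper28.ND

section deriv
variable {d : ℕ}

theorem pd_eq {f : ℝ → (Fin d → ℝ) → ℝ} (hf : ContDiff ℝ 1 (U f)) (i : Fin d)
    (t : ℝ) (x : Fin d → ℝ) :
    pd i (f t) x = fderiv ℝ (U f) (t, x) (0, Pi.single i 1) := by
  have h1 : HasFDerivAt (U f) (fderiv ℝ (U f) (t, x)) (t, x) :=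
    (hf.differentiable (by simp)).differentiableAt.hasFDerivAt
  have h2 : HasFDerivAt (fun y : Fin d → ℝ => ((t, y) : ℝ × (Fin d → ℝ)))
      (ContinuousLinearMap.inr ℝ ℝ (Fin d → ℝ)) x := hasFDerivAt_prodMk_right t x
  have h3 : HasFDerivAt (f t)
      ((fderiv ℝ (U f) (t, x)).comp (ContinuousLinearMap.inr ℝ ℝ (Fin d → ℝ))) x :=
    HasFDerivAt.comp x h1 h2
  unfold pd
  rw [h3.fderiv]
  simp

theorem dt_eq {f : ℝ → (Fin d → ℝ) → ℝ} (hf : ContDiff ℝ 1 (U f))
    (t : ℝ) (x : Fin d → ℝ) :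
    dt f t x = fderiv ℝ (U f) (t, x) (1, 0) := by
  have h1 : HasFDerivAt (U f) (fderiv ℝ (U f) (t, x)) (t, x) :=
    (hf.differentiable (by simp)).differentiableAt.hasFDerivAt
  have h2 : HasFDerivAt (fun s : ℝ => ((s, x) : ℝ × (Fin d → ℝ)))
      (ContinuousLinearMap.inl ℝ ℝ (Fin d → ℝ)) t := hasFDerivAt_prodMk_left t x
  have h0 : HasFDerivAt (U f ∘ fun s => ((s, x) : ℝ × (Fin d → ℝ)))
      ((fderiv ℝ (U f) (t, x)).comp (ContinuousLinearMap.inl ℝ ℝ (Fin d → ℝ))) t :=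
    HasFDerivAt.comp t h1 h2
  have h3 : HasFDerivAt (fun s => f s x)
      ((fderiv ℝ (U f) (t, x)).comp (ContinuousLinearMap.inl ℝ ℝ (Fin d → ℝ))) t := h0
  unfold dt
  rw [h3.hasDerivAt.deriv]
  simp

/-- The function `pd i (f t) x`. -/
noncomputable def D1 (i : Fin d) (f : ℝ → (Fin d → ℝ) → ℝ) : ℝ → (Fin d → ℝ) → ℝ :=
  fun t x => pd i (f t) x

theorem U_D1 {f : ℝ → (Fin d → ℝ) → ℝ} (hf : ContDiff ℝ 1 (U f)) (i : Fin d) :
    U (D1 i f) = fun z => fderiv ℝ (U f) z (0, Pi.single i 1) := by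
  funext z; exact pd_eq hf i z.1 z.2

theorem smooth_D1 {f : ℝ → (Fin d → ℝ) → ℝ} (hf : ContDiff ℝ 2 (U f)) (i : Fin d) :
    ContDiff ℝ 1 (U (D1 i f)) := by
  rw [U_D1 (hf.of_le (by norm_num))]
  exact (hf.fderiv_right (m := 1) (by norm_num)).clm_apply contDiff_const

theorem cont_D1 {f : ℝ → (Fin d → ℝ) → ℝ} (hf : ContDiff ℝ 1 (U f)) (i : Fin d) :
    Continuous (fun z : ℝ × (Fin d → ℝ) => pd i (f z.1) z.2) := by
  have h := U_D1 hf i
  have h2 : (fun z : ℝ × (Fin d → ℝ) => pd i (f z.1) z.2) = U (D1 i f) := rfl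
  rw [h2, h]
  exact (hf.continuous_fderiv (by simp)).clm_apply continuous_const

theorem cont_dt {f : ℝ → (Fin d → ℝ) → ℝ} (hf : ContDiff ℝ 1 (U f)) :
    Continuous (fun z : ℝ × (Fin d → ℝ) => dt f z.1 z.2) := by
  have h2 : (fun z : ℝ × (Fin d → ℝ) => dt f z.1 z.2) = fun z => fderiv ℝ (U f) z (1, 0) := by
    funext z; exact dt_eq hf z.1 z.2
  rw [h2]
  exact (hf.continuous_fderiv (by simp)).clm_apply continuous_const

theorem cont_lap {f : ℝ → (Fin d → ℝ) → ℝ} (hf : ContDiff ℝ 2 (U f)) :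
    Continuous (fun z : ℝ × (Fin d → ℝ) => lap (f z.1) z.2) := by
  have : (fun z : ℝ × (Fin d → ℝ) => lap (f z.1) z.2)
      = fun z => ∑ i, pd i (D1 i f z.1) z.2 := rfl
  rw [this]
  exact continuous_finsetSum _ fun i _ => cont_D1 (smooth_D1 hf i) i

end deriv

theorem meas_Q4 : MeasurableSet Q4 := by
  unfold Q4
  have h0 : Measurable (fun x : Fin 2 → ℝ => x 0) := measurable_pi_apply 0
  have h1 : Measurable (fun x : Fin 2 → ℝ => x 1) := measurable_pi_apply 1
  exact (measurableSet_lt measurable_const h0).inter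
    ((measurableSet_lt h0 measurable_const).inter
      ((measurableSet_lt measurable_const h1).inter (measurableSet_le h1 measurable_const)))

/-- the compact box -/
def Bx : Set (Fin 2 → ℝ) := Set.pi univ fun _ => Icc (0 : ℝ) 1

theorem Q4_sub : Q4 ⊆ Bx := by
  intro x hx
  obtain ⟨h1, h2, h3, h4⟩ := hx
  intro i _
  fin_cases i
  · exact ⟨h1.le, by simp only [Fin.zero_eta]; linarith⟩
  · exact ⟨h3.le, h4⟩

theorem cpt_Bx : IsCompact Bx := isCompact_univ_pi fun _ => isCompact_Icc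

theorem vol_Q4 : volume Q4 ≠ ⊤ :=
  ((measure_mono Q4_sub).trans_lt cpt_Bx.measure_lt_top).ne

theorem bdd_of_cont (s t : ℝ) {h : ℝ × (Fin 2 → ℝ) → ℝ} (hh : Continuous h) :
    ∃ C : ℝ, 0 ≤ C ∧ ∀ z ∈ Ioc s t ×ˢ Q4, |h z| ≤ C := by
  obtain ⟨C, hC⟩ := (isCompact_Icc.prod cpt_Bx : IsCompact (Icc s t ×ˢ Bx)).exists_bound_of_continuousOn
    hh.continuousOn
  refine ⟨max C 0, le_max_right _ _, fun z hz => ?_⟩
  exact (hC z ⟨Ioc_subset_Icc_self hz.1, Q4_sub hz.2⟩).trans (le_max_left _ _)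

theorem integ (s t : ℝ) {h : ℝ × (Fin 2 → ℝ) → ℝ} (hm : Measurable h)
    (hb : ∃ C : ℝ, ∀ z ∈ Ioc s t ×ˢ Q4, |h z| ≤ C) :
    Integrable h ((volume.restrict (Ioc s t)).prod (volume.restrict Q4)) := by
  obtain ⟨C, hC⟩ := hb
  rw [Measure.prod_restrict]
  refine Measure.integrableOn_of_bounded (M := C) ?_ hm.aestronglyMeasurable ?_
  · rw [Measure.prod_prod]
    exact ENNReal.mul_ne_top (by simp) vol_Q4
  · exact (ae_restrict_iff' (measurableSet_Ioc.prod meas_Q4)).2 (ae_of_all _ fun z hz => hC z hz)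

theorem main (htest : S_TESTQ) (hreg : S_FREG) : S_SUB := by
  intro T b f u v hS s t g hs hst htT hg
  obtain ⟨δ, hδ, hsm⟩ := hg.smooth
  let B : ContDiffBump ((s + t) / 2) :=
    { rIn := (t - s) / 2 + δ / 3
      rOut := (t - s) / 2 + 2 * δ / 3
      rIn_pos := by have : 0 ≤ t - s := by linarith
                    positivity
      rIn_lt_rOut := by linarith }
  have hBin : B.rIn = (t - s) / 2 + δ / 3 := rfl
  have hBout : B.rOut = (t - s) / 2 + 2 * δ / 3 := rfl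
  obtain ⟨g', hg'⟩ : ∃ g' : ℝ → (Fin 2 → ℝ) → ℝ, g' = fun r x => B r * g r x := ⟨_, rfl⟩
  have hsm' : ContDiff ℝ 2 (U g') := by
    rw [contDiff_iff_contDiffAt]
    intro z
    by_cases hz : z.1 ∈ Ioo (s - δ) (t + δ)
    · have h1 : ContDiffAt ℝ 2 (U g) z :=
        hsm.contDiffAt ((isOpen_Ioo.prod isOpen_univ).mem_nhds ⟨hz, trivial⟩)
      have h2 : ContDiffAt ℝ 2 (fun w : ℝ × (Fin 2 → ℝ) => B w.1) z :=
        (B.contDiff.comp contDiff_fst).contDiffAt
      have h3 : U g' = fun w => B w.1 * U g w := by rw [hg']; rfl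
      rw [h3]
      exact h2.mul h1
    · have h1 : B.rOut < dist z.1 ((s + t) / 2) := by
        rw [hBout, Real.dist_eq]
        by_contra hcon
        push Not at hcon
        have := abs_le.1 hcon
        exact hz ⟨by linarith, by linarith⟩
      have h2 : U g' =ᶠ[𝓝 z] fun _ => 0 := by
        have h3 : IsOpen {w : ℝ × (Fin 2 → ℝ) | B.rOut < dist w.1 ((s + t) / 2)} :=
          isOpen_lt continuous_const (continuous_fst.dist continuous_const)
        filter_upwards [h3.mem_nhds h1] with w hw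
        rw [hg']
        change B w.1 * g w.1 w.2 = 0
        rw [B.zero_of_le_dist (le_of_lt hw), zero_mul]
      exact contDiffAt_const.congr_of_eventuallyEq h2
  have hT4 : T4 g' := by
    refine ⟨hsm', ?_, ?_, ?_⟩
    · intro r x; rw [hg']; simp only; rw [hg.per]
    · intro r x hx; rw [hg']; simp only; rw [hg.wall r x hx, mul_zero]
    · intro r x hx; rw [hg']; simp only; rw [hg.flat r x hx]
  have hball : ∀ r, s ≤ r → r ≤ t → r ∈ Metric.ball ((s + t) / 2) B.rIn := by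
    intro r h1 h2
    rw [Metric.mem_ball, Real.dist_eq, hBin]
    exact abs_lt.2 ⟨by linarith, by linarith⟩
  have hone : ∀ r, s ≤ r → r ≤ t → B r = 1 := fun r h1 h2 =>
    B.one_of_mem_closedBall (Metric.ball_subset_closedBall (hball r h1 h2))
  have heq : ∀ r, s ≤ r → r ≤ t → g' r = g r := by
    intro r h1 h2
    funext x
    rw [hg']
    simp only
    rw [hone r h1 h2, one_mul]
  have hdt : ∀ r, s ≤ r → r ≤ t → ∀ x, dt g' r x = dt g r x := by
    intro r h1 h2 x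
    unfold dt
    apply Filter.EventuallyEq.deriv_eq
    filter_upwards [B.eventuallyEq_one_of_mem_ball (hball r h1 h2)] with q hq
    rw [hg']
    simp only
    rw [hq]
    simp
  have key := htest T b f u v hS.hT hS.sol hS.su hS.sf hS.sb g' hT4 s t hs hst htT
  rw [heq t hst le_rfl, heq s le_rfl hst] at key
  -- measurability and bounds
  obtain ⟨hu, -, -, -⟩ := hreg 2 T b f u v hS.hT hS.sol
  obtain ⟨Cu, hCu⟩ := hu.bdd
  obtain ⟨Cb, hCb⟩ := hS.sol.dat.bdd
  have hmu : Measurable (fun z : ℝ × (Fin 2 → ℝ) => u z.1 z.2) := hu.meas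
  have hmf : Measurable (fun z : ℝ × (Fin 2 → ℝ) => f z.1 z.2) := hS.sol.dat.mf
  have hmb : ∀ i, Measurable (fun z : ℝ × (Fin 2 → ℝ) => b z.1 z.2 i) := fun i =>
    (measurable_pi_apply i).comp hS.sol.dat.mb
  have h1' : ContDiff ℝ 1 (U g') := hsm'.of_le (by norm_num)
  have c0 : Continuous (fun z : ℝ × (Fin 2 → ℝ) => g' z.1 z.2) := hsm'.continuous
  have c1 := cont_dt h1'
  have c2 := fun i => cont_D1 h1' i
  have c3 := cont_lap hsm'
  obtain ⟨A, hA⟩ : ∃ A : ℝ × (Fin 2 → ℝ) → ℝ, A = fun z => u z.1 z.2 * (dt g' z.1 z.2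
    + (∑ i, b z.1 z.2 i * pd i (g' z.1) z.2) + lap (g' z.1) z.2) := ⟨_, rfl⟩
  obtain ⟨F, hF⟩ : ∃ F : ℝ × (Fin 2 → ℝ) → ℝ, F = fun z => f z.1 z.2 * g' z.1 z.2 := ⟨_, rfl⟩
  have mA : Measurable A := by
    rw [hA]
    exact hmu.mul ((c1.measurable.add (Finset.measurable_sum _ fun i _ =>
      (hmb i).mul (c2 i).measurable)).add c3.measurable)
  have mF : Measurable F := by
    rw [hF]; exact hmf.mul c0.measurable
  obtain ⟨K0, k0, hK0⟩ := bdd_of_cont s t c0
  obtain ⟨K1, k1, hK1⟩ := bdd_of_cont s t c1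
  obtain ⟨K3, k3, hK3⟩ := bdd_of_cont s t c3
  choose K2 k2 hK2 using fun i => bdd_of_cont s t (c2 i)
  have iA : Integrable A ((volume.restrict (Ioc s t)).prod (volume.restrict Q4)) := by
    refine integ s t mA ⟨|Cu| * (K1 + (∑ i, |Cb| * K2 i) + K3), fun z hz => ?_⟩
    rw [hA]
    simp only
    rw [abs_mul]
    apply mul_le_mul ((hCu z.1 z.2).trans (le_abs_self _)) _ (abs_nonneg _) (abs_nonneg _)
    refine (abs_add_le _ _).trans (add_le_add ((abs_add_le _ _).trans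
      (add_le_add (hK1 z hz) ?_)) (hK3 z hz))
    refine (Finset.abs_sum_le_sum_abs _ _).trans (Finset.sum_le_sum fun i _ => ?_)
    rw [abs_mul]
    exact mul_le_mul (((hCb z.1 z.2).2 i).trans (le_abs_self _)) (hK2 i z hz) (abs_nonneg _)
      (abs_nonneg _)
  have iF : Integrable F ((volume.restrict (Ioc s t)).prod (volume.restrict Q4)) := by
    refine integ s t mF ⟨|Cb| * K0, fun z hz => ?_⟩
    rw [hF]
    simp only
    rw [abs_mul]
    exact mul_le_mul ((hCb z.1 z.2).1.trans (le_abs_self _)) (hK0 z hz) (abs_nonneg _)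
      (abs_nonneg _)
  have hsplit : ∫ r in Ioc s t, ∫ x in Q4, (u r x * (dt g' r x + (∑ i, b r x i * pd i (g' r) x)
          + lap (g' r) x) + f r x * g' r x)
      = (∫ r in Ioc s t, ∫ x in Q4, A (r, x)) + ∫ r in Ioc s t, ∫ x in Q4, F (r, x) := by
    rw [← integral_add iA.integral_prod_left iF.integral_prod_left]
    apply integral_congr_ae
    filter_upwards [iA.prod_right_ae, iF.prod_right_ae] with r hr1 hr2
    rw [← integral_add hr1 hr2, hA, hF]
  have hFF : ∫ r in Ioc s t, ∫ x in Q4, F (r, x) = ∫ r in Ioc s t, ∫ x in Q4, f r x * g r x := by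
    apply setIntegral_congr_fun measurableSet_Ioc
    intro r hr
    simp only
    rw [hF]
    simp only
    rw [heq r hr.1.le hr.2]
  have hAA : ∫ r in Ioc s t, ∫ x in Q4, A (r, x) = ∫ r in Ioo s t, ∫ x in Q4,
      u r x * (dt g r x + (∑ i, b r x i * pd i (g r) x) + lap (g r) x) := by
    rw [integral_Ioc_eq_integral_Ioo]
    apply setIntegral_congr_fun measurableSet_Ioo
    intro r hr
    simp only
    rw [hA]
    simp only
    rw [heq r hr.1.le hr.2.le]
    apply setIntegral_congr_fun meas_Q4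
    intro x _
    simp only
    rw [hdt r hr.1.le hr.2.le]
  rw [hsplit, hFF, hAA] at key
  have hpos : ∀ r x, s < r → r < t → x ∈ Q4 → 0 ≤ u r x := fun r x _ h2 hx =>
    hS.up r x (by linarith) hx.1.le hx.2.1.le
  constructor
  · intro hop
    have : 0 ≤ ∫ r in Ioo s t, ∫ x in Q4,
        u r x * (dt g r x + (∑ i, b r x i * pd i (g r) x) + lap (g r) x) :=
      setIntegral_nonneg measurableSet_Ioo fun r hr => setIntegral_nonneg meas_Q4 fun x hx =>
        mul_nonneg (hpos r x hr.1 hr.2 hx) (hop r x hr.1 hr.2 hx)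
    linarith
  · intro hop
    have : ∫ r in Ioo s t, ∫ x in Q4,
        u r x * (dt g r x + (∑ i, b r x i * pd i (g r) x) + lap (g r) x) ≤ 0 :=
      setIntegral_nonpos measurableSet_Ioo fun r hr => setIntegral_nonpos meas_Q4 fun x hx =>
        mul_nonpos_of_nonneg_of_nonpos (hpos r x hr.1 hr.2 hx) (hop r x hr.1 hr.2 hx)
    linarith

end Pool.Agent.Helper57.ND.SUB
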