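import Pool.Agent.Helper28.ND.Spec4
import Pool.Agent.Helper57.ND.SUB

/-!
# ND2, part LBD: lower bound after the top block.
-/

set_option autoImplicit false

namespace Pool.Agent.Helper57.ND.LBD
open MeasureTheory Set Filter Topology
open Pool.Agent.Helper28.ND
open Pool.Agent.Helper57.ND.SUB (meas_Q4 Q4_sub cpt_Bx Bx vol_Q4)

theorem meas_Q2 : MeasurableSet (Q 2) := MeasurableSet.univ_pi fun _ => measurableSet_Ioc

theorem Q2_sub : Q 2 ⊆ Bx := fun _ hx i hi => Ioc_subset_Icc_self (hx i hi)

theorem vol_Q2 : volume (Q 2) ≠ ⊤ := ((measure_mono Q2_sub).trans_lt cpt_Bx.measure_lt_top).ne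

theorem Q4_sub_Q2 : Q4 ⊆ Q 2 := by
  intro x hx
  obtain ⟨h1, h2, h3, h4⟩ := hx
  intro i _
  fin_cases i
  · exact ⟨h1, by simp only [Fin.zero_eta]; linarith⟩
  · exact ⟨h3, h4⟩

instance fin4 : IsFiniteMeasure (volume.restrict Q4) := ⟨by
  rw [Measure.restrict_apply MeasurableSet.univ, univ_inter]; exact vol_Q4.lt_top⟩

instance fin2 : IsFiniteMeasure (volume.restrict (Q 2)) := ⟨by
  rw [Measure.restrict_apply MeasurableSet.univ, univ_inter]; exact vol_Q2.lt_top⟩

open Classical in
/-- the weight -/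
noncomputable def et (L T t : ℝ) (x : Fin 2 → ℝ) : ℝ :=
  if L < t ∧ t < T ∧ 0 < Int.fract (x 0) ∧ Int.fract (x 0) < 1 / 4 then
    Gp (8 * Int.fract (x 0)) else 0

theorem main (hINJ : S_INJ) (hPERX : S_PERX) (hBLK : S_BLK) (hNUM : S_NUM) (hGP : S_GP)
    (hFREG : S_FREG) : S_LBD := by
  intro T n0 N M hP
  obtain ⟨hr, -, -, hL, hL2, -, hK, -, -, h15, h16, h20, h8⟩ := hNUM T n0 N M hP 0
  obtain ⟨cG, -, -, ⟨hG0, hG1, hG2, hG3, hG4, -, -⟩, -, -⟩ := hGP
  set L := LL n0 N 0 with hLdef
  set ρ := RR (L - KC n0 N M 0) with hρ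
  have hKL : KC n0 N M 0 < L := by nlinarith [sq_nonneg (rr n0 N 0), pow_pos hr 2]
  have hρ0 : 0 < ρ := by linarith
  have hT := hP.hT
  have hLT : L < T := by linarith
  have hg0 : 0 < Gp (8 * (15 / 100 * ρ)) := by
    have h1 : 0 ≤ 8 * (15 / 100 * ρ) := by positivity
    have h2 : 8 * (15 / 100 * ρ) ≤ 1 := by linarith
    have := hG3 _ h1 h2
    have h3 : 0 < 8 * (15 / 100 * ρ) := by positivity
    linarith
  have hmet : Measurable (U (et L T)) := by
    unfold U et
    have hfr : Measurable (fun z : ℝ × (Fin 2 → ℝ) => Int.fract (z.2 0)) :=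
      measurable_fract.comp ((measurable_pi_apply 0).comp measurable_snd)
    refine Measurable.ite ?_ (cG.continuous.measurable.comp (measurable_const.mul hfr))
      measurable_const
    exact (measurableSet_lt measurable_const measurable_fst).inter
      ((measurableSet_lt measurable_fst measurable_const).inter
        ((measurableSet_lt measurable_const hfr).inter (measurableSet_lt hfr measurable_const)))
  have hbet : ∀ t x, |et L T t x| ≤ 1 := by
    intro t x
    unfold et
    split_ifs with h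
    · have h1 : 0 ≤ 8 * Int.fract (x 0) := by
        have := Int.fract_nonneg (x 0); positivity
      obtain ⟨h2, h3, -⟩ := hG2 _ h1
      rw [abs_of_nonneg h2]; exact h3
    · simp
  refine ⟨et L T, (T - L) * (Real.exp (-(768 * T)) * Gp (8 * (15 / 100 * ρ))),
    ⟨hmet, ?_, ⟨1, hbet⟩⟩, ?_, ?_⟩
  · intro t x k
    unfold et
    simp only [Int.fract_add_intCast]
  · have : 0 < T - L := by linarith
    positivity
  intro K u v hsol
  obtain ⟨hS, -⟩ := hPERX T n0 N M hP K 0 u v hsol
  obtain ⟨hu, -, -, -⟩ := hFREG 2 T _ _ u v hS.hT hS.sol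
  obtain ⟨Cu, hCu⟩ := hu.bdd
  obtain ⟨-, -, -, -, -, hz, -⟩ := hBLK T n0 N M hP K 0
  have hmut : ∀ t, Measurable (u t) := fun t =>
    (hu.meas.comp (measurable_const.prodMk measurable_id) : Measurable fun x => U u (t, x))
  have hmG : Measurable (fun x : Fin 2 → ℝ => Gp (x 0 / (1 / 8))) :=
    cG.continuous.measurable.comp ((measurable_pi_apply 0).div_const _)
  -- the lower bound at time L
  have hint : ∀ t, Integrable (fun x => u t x * Gp (x 0 / (1 / 8))) (volume.restrict Q4) := by
    intro t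
    refine Measure.integrableOn_of_bounded (M := |Cu| * 1) vol_Q4
      ((hmut t).mul hmG).aestronglyMeasurable ?_
    refine (ae_restrict_iff' meas_Q4).2 (ae_of_all _ fun x hx => ?_)
    rw [Real.norm_eq_abs, abs_mul]
    have h1 : 0 ≤ x 0 / (1 / 8) := by have := hx.1; positivity
    obtain ⟨h2, h3, -⟩ := hG2 _ h1
    exact mul_le_mul ((hCu t x).trans (le_abs_self _)) (by rw [abs_of_nonneg h2]; exact h3)
      (abs_nonneg _) (abs_nonneg _)
  have hfar : Gp (8 * (15 / 100 * ρ)) * far n0 N M 0 (u L)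
      ≤ ∫ x in Q4, u L x * Gp (x 0 / (1 / 8)) := by
    unfold far
    rw [← integral_const_mul]
    refine setIntegral_mono_on ?_ (hint L) meas_Q4 ?_
    · refine Measure.integrableOn_of_bounded (M := |Gp (8 * (15 / 100 * ρ))| * |Cu|) vol_Q4 ?_ ?_
      · exact (measurable_const.mul (Measurable.ite (measurableSet_le measurable_const
          (measurable_pi_apply 0)) (hmut L) measurable_const)).aestronglyMeasurable
      · refine ae_of_all _ fun x => ?_
        rw [Real.norm_eq_abs, abs_mul]
        refine mul_le_mul_of_nonneg_left ?_ (abs_nonneg _)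
        split_ifs
        · exact (hCu _ _).trans (le_abs_self _)
        · simp
    · intro x hx
      have hup : 0 ≤ u L x := hS.up L x hLT.le hx.1.le hx.2.1.le
      have hx0 : (0 : ℝ) ≤ x 0 := hx.1.le
      have h1 : 0 ≤ x 0 / (1 / 8) := by positivity
      obtain ⟨h2, h3, -⟩ := hG2 _ h1
      simp only [← hLdef, ← hρ]
      split_ifs with h
      · rw [mul_comm]
        refine mul_le_mul_of_nonneg_left (hG4 _ _ (by positivity) ?_) hup
        rw [div_div_eq_mul_div, div_one]
        linarith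
      · rw [mul_zero]; exact mul_nonneg hup h2
  have hfar0 : 0 ≤ ∫ x in Q4, u L x * Gp (x 0 / (1 / 8)) := by
    refine setIntegral_nonneg meas_Q4 fun x hx => mul_nonneg (hS.up L x hLT.le hx.1.le hx.2.1.le) ?_
    have hx0 : (0 : ℝ) ≤ x 0 := hx.1.le
    exact (hG2 _ (by positivity)).1
  -- at later times
  have hlow : ∀ t ∈ Ioo L T, Real.exp (-(768 * T)) * (Gp (8 * (15 / 100 * ρ))
      * far n0 N M 0 (u L)) ≤ ∫ x in Q 2, u t x * et L T t x := by
    intro t ht
    have h1 : ∫ x in Q 2, u t x * et L T t x = ∫ x in Q4, u t x * Gp (x 0 / (1 / 8)) := by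
      refine (setIntegral_eq_of_subset_of_forall_sdiff_eq_zero meas_Q2 Q4_sub_Q2 ?_).trans ?_
      rotate_left
      · refine setIntegral_congr_fun meas_Q4 fun x hx => ?_
        obtain ⟨e1, e2, e3, e4⟩ := hx
        have hf : Int.fract (x 0) = x 0 := Int.fract_eq_self.2 ⟨e1.le, by linarith⟩
        unfold et
        rw [hf, if_pos ⟨ht.1, ht.2, e1, e2⟩]
        congr 2
        ring
      · intro x hx
        have hne : ¬ (L < t ∧ t < T ∧ 0 < Int.fract (x 0) ∧ Int.fract (x 0) < 1 / 4) := by
          rintro ⟨-, -, e1, e2⟩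
          apply hx.2
          have hx0 := hx.1 0 (mem_univ _)
          have hx1 := hx.1 1 (mem_univ _)
          have h01 : x 0 ≠ 1 := by
            intro h; rw [h] at e1; simp at e1
          have hf : Int.fract (x 0) = x 0 :=
            Int.fract_eq_self.2 ⟨hx0.1.le, lt_of_le_of_ne hx0.2 h01⟩
          rw [hf] at e2
          exact ⟨hx0.1, e2, hx1.1, hx1.2⟩
        unfold et
        rw [if_neg hne, mul_zero]
    rw [h1]
    have hinj := hINJ T _ _ u v hS L t (1 / 8) hL.le ht.1.le ht.2.le (by norm_num) le_rfl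
      (fun r x hr1 _ i => (hz r (Or.inr (by linarith)) x).2 i)
    have hsrc : ∫ r in Ioc L t, ∫ x in Q4, ft n0 N M K 0 r x * Gp (x 0 / (1 / 8)) = 0 := by
      refine setIntegral_eq_zero_of_forall_eq_zero fun r hr => ?_
      refine setIntegral_eq_zero_of_forall_eq_zero fun x _ => ?_
      rw [(hz r (Or.inr (by linarith [hr.1])) x).1, zero_mul]
    rw [hsrc, add_zero] at hinj
    refine le_trans ?_ hinj
    have he : Real.exp (-(768 * T)) ≤ Real.exp (-(12 * (t - L) / (1 / 8) ^ 2)) := by
      apply Real.exp_le_exp.2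
      have : 12 * (t - L) / (1 / 8) ^ 2 = 768 * (t - L) := by ring
      rw [this]
      nlinarith [ht.2]
    exact mul_le_mul he hfar (le_trans (by
      have : 0 ≤ far n0 N M 0 (u L) := by
        unfold far
        refine setIntegral_nonneg meas_Q4 fun x hx => ?_
        split_ifs
        · exact hS.up L x hLT.le hx.1.le hx.2.1.le
        · exact le_rfl
      positivity) le_rfl) (Real.exp_pos _).le
  -- integrate in time
  have hI : Integrable (fun z : ℝ × (Fin 2 → ℝ) => u z.1 z.2 * et L T z.1 z.2)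
      ((volume.restrict (Ioo L T)).prod (volume.restrict (Q 2))) := by
    refine Integrable.of_bound (hu.meas.mul hmet).aestronglyMeasurable (|Cu| * 1)
      (ae_of_all _ fun z => ?_)
    rw [Real.norm_eq_abs, abs_mul]
    exact mul_le_mul ((hCu _ _).trans (le_abs_self _)) (hbet _ _) (abs_nonneg _) (abs_nonneg _)
  have hsub : ∫ t in Ioo 0 T, ∫ x in Q 2, u t x * et L T t x
      = ∫ t in Ioo L T, ∫ x in Q 2, u t x * et L T t x := by
    refine (setIntegral_eq_of_subset_of_forall_sdiff_eq_zero measurableSet_Ioo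
      (Ioo_subset_Ioo_left hL.le) ?_)
    intro t ht
    refine setIntegral_eq_zero_of_forall_eq_zero fun x _ => ?_
    unfold et
    rw [if_neg, mul_zero]
    rintro ⟨h1, h2, -, -⟩
    exact ht.2 ⟨h1, h2⟩
  rw [hsub]
  have hc : ∫ _t in Ioo L T, Real.exp (-(768 * T)) * (Gp (8 * (15 / 100 * ρ))
      * far n0 N M 0 (u L)) = (T - L) * (Real.exp (-(768 * T)) * Gp (8 * (15 / 100 * ρ)))
        * far n0 N M 0 (u L) := by
    rw [setIntegral_const, Real.volume_real_Ioo_of_le hLT.le, smul_eq_mul]
    ring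
  rw [← hc]
  exact setIntegral_mono_on (integrableOn_const (by simp)) hI.integral_prod_left measurableSet_Ioo hlow

end Pool.Agent.Helper57.ND.LBD
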